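import Pool.Agent.K3h92.Hz.Stm

/-!
# Hurwitz bricks LEAD and OPP
-/

set_option autoImplicit false

namespace Pool.Agent.K3h15.Hz

open Pool.Agent.K3h92.Hz Submodule Module

variable {G : Type} [Group G] {V : Type} [AddCommGroup V] [Module ℚ V]

theorem sp_nil (R : RS G V) : R.sp [] = ⊥ := by
  simp [RS.sp]

theorem sp_append (R : RS G V) (l l' : List G) : R.sp (l ++ l') = R.sp l ⊔ R.sp l' := by
  unfold RS.sp
  rw [← Submodule.span_union]
  congr 1
  ext v
  simp only [List.mem_append, Set.mem_ofPred_eq, Set.mem_union]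
  constructor
  · rintro ⟨t, h | h, rfl⟩
    · exact Or.inl ⟨t, h, rfl⟩
    · exact Or.inr ⟨t, h, rfl⟩
  · rintro (⟨t, h, rfl⟩ | ⟨t, h, rfl⟩)
    · exact ⟨t, Or.inl h, rfl⟩
    · exact ⟨t, Or.inr h, rfl⟩

theorem sp_single (R : RS G V) (t : G) : R.sp [t] = span ℚ {R.α t} := by
  unfold RS.sp
  congr 1
  ext v
  simp

theorem sp_snoc (R : RS G V) (l : List G) (t : G) :
    R.sp (l ++ [t]) = R.sp l ⊔ span ℚ {R.α t} := by
  rw [sp_append, sp_single]

theorem α_mem (R : RS G V) {l : List G} {t : G} (h : t ∈ l) : R.α t ∈ R.sp l :=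
  Submodule.subset_span ⟨t, h, rfl⟩

theorem sp_mono (R : RS G V) {l l' : List G} (h : ∀ t ∈ l, t ∈ l') : R.sp l ≤ R.sp l' := by
  unfold RS.sp
  apply Submodule.span_mono
  rintro v ⟨t, ht, rfl⟩
  exact ⟨t, h t ht, rfl⟩

theorem finrank_sup_single_le [FiniteDimensional ℚ V] (S : Submodule ℚ V) (v : V) :
    finrank ℚ ↥(S ⊔ span ℚ {v}) ≤ finrank ℚ S + 1 := by
  refine (Submodule.finrank_add_le_finrank_add_finrank _ _).trans ?_
  have h : finrank ℚ (span ℚ {v}) ≤ 1 := by
    by_cases hv : v = 0
    · subst hv
      rw [Submodule.span_zero_singleton, finrank_bot]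
      omega
    · exact le_of_eq (finrank_span_singleton hv)
  omega

theorem finrank_sp_le [FiniteDimensional ℚ V] (R : RS G V) (l : List G) :
    finrank ℚ (R.sp l) ≤ l.length := by
  induction l using List.reverseRecOn with
  | nil => rw [sp_nil]; simp
  | append_singleton l t ih =>
    rw [sp_snoc, List.length_append]
    have := finrank_sup_single_le (R.sp l) (R.α t)
    simp only [List.length_singleton]
    omega

theorem mem_sup_single {S : Submodule ℚ V} {v x : V} :
    x ∈ S ⊔ span ℚ {v} ↔ ∃ y ∈ S, ∃ c : ℚ, x = y + c • v := by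
  rw [Submodule.mem_sup]
  constructor
  · rintro ⟨y, hy, z, hz, rfl⟩
    obtain ⟨c, rfl⟩ := Submodule.mem_span_singleton.1 hz
    exact ⟨y, hy, c, rfl⟩
  · rintro ⟨y, hy, c, rfl⟩
    exact ⟨y, hy, c • v, Submodule.smul_mem _ _ (Submodule.mem_span_singleton_self v), rfl⟩

theorem lead : StmLead := by
  intro G _ V _ _ _ R l
  induction l using List.reverseRecOn with
  | nil =>
    intro _ _ g hg hg0
    rw [sp_nil] at hg
    exact absurd ((Submodule.mem_bot ℚ).1 hg) hg0
  | append_singleton l0 t0 ih =>
    intro hT hfin g hg hg0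
    have hT0 : ∀ t ∈ l0, t ∈ R.T := fun t ht => hT t (by simp [ht])
    have ht0 : t0 ∈ R.T := hT t0 (by simp)
    have hle := finrank_sp_le R l0
    have hle2 := finrank_sup_single_le (R.sp l0) (R.α t0)
    rw [sp_snoc] at hfin
    simp only [List.length_append, List.length_singleton] at hfin
    have hfin0 : finrank ℚ (R.sp l0) = l0.length := by omega
    have hα : R.α t0 ∉ R.sp l0 := by
      intro h
      have : R.sp l0 ⊔ span ℚ {R.α t0} = R.sp l0 := by
        rw [sup_eq_left, Submodule.span_singleton_le_iff_mem]; exact h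
      rw [this] at hfin
      omega
    by_cases hg1 : g ∈ R.sp l0
    · obtain ⟨u0, t1, hu0, ht1, hprod, hlen, hgu, hsp, hlast⟩ := ih hT0 hfin0 g hg1 hg0
      have ht1T : t1 ∈ R.T := hT0 t1 ht1
      have h11 : t1 * t1 = 1 := R.inv t1 ht1T
      obtain ⟨k, k', hk, hroot⟩ := R.root t1 ht1T t0 ht0
      refine ⟨u0 ++ [t1 * t0 * t1], t1, ?_, ?_, ?_, ?_, ?_, ?_, ?_⟩
      · intro x hx
        rcases List.mem_append.1 hx with hx | hx
        · exact hu0 x hx
        · rw [List.mem_singleton.1 hx]
          exact R.conj t1 ht1T t0 ht0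
      · simp [ht1]
      · rw [List.prod_append, List.prod_singleton, List.prod_append, List.prod_singleton, ← hprod]
        calc u0.prod * (t1 * t0 * t1) * t1 = u0.prod * t1 * t0 * (t1 * t1) := by group
          _ = u0.prod * t1 * t0 := by rw [h11, mul_one]
      · simp only [List.length_append, List.length_singleton]
        omega
      · intro hmem
        rw [sp_snoc] at hmem
        obtain ⟨y, hy, c, hgy⟩ := mem_sup_single.1 hmem
        rw [hroot] at hgy
        have hy0 : y ∈ R.sp l0 := by
          rw [← hsp]; exact sp_mono R (fun t ht => by simp [ht]) hy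
        have ht1m : R.α t1 ∈ R.sp l0 := α_mem R ht1
        have h1 : (c * k) • R.α t0 ∈ R.sp l0 := by
          have : (c * k) • R.α t0 = g - y - (c * k') • R.α t1 := by
            rw [hgy, smul_add, smul_smul, smul_smul]; abel
          rw [this]
          exact Submodule.sub_mem _ (Submodule.sub_mem _ hg1 hy0) (Submodule.smul_mem _ _ ht1m)
        have hc : c = 0 := by
          by_contra hc
          exact hα ((Submodule.smul_mem_iff _ (mul_ne_zero hc hk)).1 h1)
        rw [hc, zero_smul, add_zero] at hgy
        exact hgu (hgy ▸ hy)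
      · apply le_antisymm
        · rw [sp_snoc, sp_snoc, sp_snoc]
          refine sup_le (sup_le ?_ ?_) ?_
          · refine le_trans ?_ (le_sup_left)
            rw [← hsp]; exact sp_mono R (fun t ht => by simp [ht])
          · rw [Submodule.span_singleton_le_iff_mem, hroot]
            refine Submodule.add_mem _ (Submodule.smul_mem _ _ ?_) (Submodule.smul_mem _ _ ?_)
            · exact le_sup_right (a := R.sp l0) (Submodule.mem_span_singleton_self _)
            · exact le_sup_left (a := R.sp l0) (α_mem R ht1)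
          · rw [Submodule.span_singleton_le_iff_mem]
            exact le_sup_left (a := R.sp l0) (α_mem R ht1)
        · rw [sp_snoc]
          have ha : R.sp l0 ≤ R.sp ((u0 ++ [t1 * t0 * t1]) ++ [t1]) := by
            rw [← hsp]
            apply sp_mono
            intro t ht
            simp only [List.mem_append, List.mem_singleton] at ht ⊢
            tauto
          refine sup_le ha ?_
          rw [Submodule.span_singleton_le_iff_mem]
          have hm1 : R.α (t1 * t0 * t1) ∈ R.sp ((u0 ++ [t1 * t0 * t1]) ++ [t1]) :=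
            α_mem R (by simp)
          have hm2 : R.α t1 ∈ R.sp ((u0 ++ [t1 * t0 * t1]) ++ [t1]) := α_mem R (by simp)
          rw [hroot] at hm1
          have hm3 : k • R.α t0 ∈ R.sp ((u0 ++ [t1 * t0 * t1]) ++ [t1]) := by
            have : k • R.α t0 = (k • R.α t0 + k' • R.α t1) - k' • R.α t1 := by abel
            rw [this]
            exact Submodule.sub_mem _ hm1 (Submodule.smul_mem _ _ hm2)
          exact (Submodule.smul_mem_iff _ hk).1 hm3
      · intro s l1 hl hgs
        cases l0 with
        | nil => simp at ht1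
        | cons a l0' =>
          simp only [List.cons_append, List.cons.injEq] at hl
          obtain ⟨rfl, rfl⟩ := hl
          exact List.mem_append_left _ (hlast a l0' rfl hgs)
    · refine ⟨l0, t0, hT0, by simp, by simp, by simp, hg1, rfl, ?_⟩
      intro s l1 hl hgs
      cases l0 with
      | nil =>
        simp only [List.nil_append, List.cons.injEq] at hl
        obtain ⟨rfl, rfl⟩ := hl
        exact absurd hg hgs
      | cons a l0' =>
        simp only [List.cons_append, List.cons.injEq] at hl
        obtain ⟨rfl, rfl⟩ := hl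
        simp

end Pool.Agent.K3h15.Hz
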