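import Pool.Agent.K3h15.Hz.Lead

/-!
# Hurwitz brick OPP
-/

set_option autoImplicit false

namespace Pool.Agent.K3h15.Hz

open Pool.Agent.K3h92.Hz Submodule Module

variable {G : Type} [Group G] {V : Type} [AddCommGroup V] [Module ℚ V] [FiniteDimensional ℚ V]

theorem finrank_sp_u (R : RS G V) (k : ℕ) (u : List G) (t : G) (hu : u.length = k)
    (hf : finrank ℚ (R.sp (u ++ [t])) = k + 1) : finrank ℚ (R.sp u) = k := by
  have h1 := finrank_sp_le R u
  rw [sp_snoc] at hf
  have h2 := finrank_sup_single_le (R.sp u) (R.α t)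
  omega

theorem finrank_F' (R : RS G V) (k : ℕ) (u : List G) (t : G) (hu : u.length = k)
    (hf : finrank ℚ (R.sp (u ++ [t])) = k + 1) (F : ℕ → Submodule ℚ V)
    (hF : ∀ j, j ≤ k + 1 → finrank ℚ (F j) = j)
    (hmono : ∀ i j, i ≤ j → j ≤ k + 1 → F i ≤ F j) (htop : F (k + 1) ≤ R.sp (u ++ [t]))
    (h1 : ¬ F 1 ≤ R.sp u) (j : ℕ) (hj : j ≤ k) :
    finrank ℚ ↥(F (j + 1) ⊓ R.sp u) = j := by
  have hk := finrank_sp_u R k u t hu hf
  have e := Submodule.finrank_sup_add_finrank_inf_eq (F (j + 1)) (R.sp u)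
  have hle : F (j + 1) ⊔ R.sp u ≤ R.sp (u ++ [t]) :=
    sup_le ((hmono _ _ (by omega) le_rfl).trans htop) (sp_mono R (fun x hx => by simp [hx]))
  have h2 : finrank ℚ ↥(F (j + 1) ⊔ R.sp u) ≤ k + 1 := hf ▸ Submodule.finrank_mono hle
  have h3 : R.sp u < F (j + 1) ⊔ R.sp u := by
    refine lt_of_le_of_ne le_sup_right ?_
    intro h
    apply h1
    rw [h]
    exact (hmono 1 (j + 1) (by omega) (by omega)).trans le_sup_left
  have h4 := Submodule.finrank_lt_finrank_of_lt h3
  have h5 := hF (j + 1) (by omega)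
  omega

theorem opp_step (R : RS G V) (k : ℕ) (u' : List G) (t : G) (S : Submodule ℚ V)
    (F : ℕ → Submodule ℚ V) (hu' : u'.length = k)
    (hS : R.sp u' ≤ S) (hF0 : finrank ℚ (F 0) = 0)
    (h : ∀ i, i ≤ k → R.sp (u'.take i) ⊓ (F (k - i + 1) ⊓ S) = ⊥) :
    ∀ i, i ≤ k + 1 → R.sp ((u' ++ [t]).take i) ⊓ F (k + 1 - i) = ⊥ := by
  intro i hi
  rcases Nat.lt_or_ge k i with hik | hik
  · have : k + 1 - i = 0 := by omega
    rw [this, Submodule.finrank_eq_zero.1 hF0, inf_bot_eq]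
  · have e1 : (u' ++ [t]).take i = u'.take i := by
      rw [List.take_append_of_le_length (by omega)]
    have e2 : k + 1 - i = k - i + 1 := by omega
    rw [e1, e2]
    have h0 := h i hik
    rw [eq_bot_iff] at h0 ⊢
    refine le_trans ?_ h0
    refine le_inf inf_le_left (le_inf inf_le_right ?_)
    refine inf_le_left.trans (le_trans ?_ hS)
    exact sp_mono R (fun x hx => List.mem_of_mem_take hx)

theorem lemB (hl : StmLead) (R : RS G V) (k : ℕ) : ∀ (l : List G), (∀ t ∈ l, t ∈ R.T) →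
    l.length = k → finrank ℚ (R.sp l) = k → ∀ F : ℕ → Submodule ℚ V,
    (∀ j, j ≤ k → finrank ℚ (F j) = j) → (∀ i j, i ≤ j → j ≤ k → F i ≤ F j) →
    F k ≤ R.sp l → ∃ l' : List G, (∀ x ∈ l', x ∈ R.T) ∧ l'.length = k ∧ l'.prod = l.prod ∧
      R.sp l' ≤ R.sp l ∧ ∀ i, i ≤ k → R.sp (l'.take i) ⊓ F (k - i) = ⊥ := by
  induction k with
  | zero =>
    intro l hT hlen hfin F hF hmono htop
    refine ⟨l, hT, hlen, rfl, le_rfl, ?_⟩
    intro i hi
    have : 0 - i = 0 := by omega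
    rw [this, Submodule.finrank_eq_zero.1 (hF 0 le_rfl), inf_bot_eq]
  | succ k ih =>
    intro l hT hlen hfin F hF hmono htop
    have h1 := hF 1 (by omega)
    obtain ⟨g, hg, hg0⟩ : ∃ g ∈ F 1, g ≠ 0 := by
      by_contra hcon
      push Not at hcon
      have : F 1 = ⊥ := by
        rw [eq_bot_iff]; intro x hx
        exact (Submodule.mem_bot ℚ).2 (hcon x hx)
      rw [this, finrank_bot] at h1
      omega
    have hgl : g ∈ R.sp l := htop (hmono 1 (k + 1) (by omega) le_rfl hg)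
    obtain ⟨u, t, huT, htl, hprod, hulen, hgu, hsp, -⟩ := hl G V R l hT (by rw [hfin, hlen]) g hgl hg0
    have hulen' : u.length = k := by omega
    have hfin' : finrank ℚ (R.sp (u ++ [t])) = k + 1 := by rw [hsp, hfin]
    have htop' : F (k + 1) ≤ R.sp (u ++ [t]) := by rw [hsp]; exact htop
    have hF1 : ¬ F 1 ≤ R.sp u := fun h => hgu (h hg)
    obtain ⟨u', hu'T, hu'len, hu'prod, hu'sp, hu'⟩ := ih u huT hulen'
      (finrank_sp_u R k u t hulen' hfin') (fun j => F (j + 1) ⊓ R.sp u)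
      (fun j hj => finrank_F' R k u t hulen' hfin' F hF hmono htop' hF1 j hj)
      (fun i j hij hj => inf_le_inf_right _ (hmono _ _ (by omega) (by omega)))
      inf_le_right
    refine ⟨u' ++ [t], ?_, ?_, ?_, ?_, ?_⟩
    · intro x hx
      rcases List.mem_append.1 hx with hx | hx
      · exact hu'T x hx
      · rw [List.mem_singleton.1 hx]; exact hT t htl
    · simp [hu'len]
    · rw [List.prod_append, List.prod_singleton, hu'prod, hprod]
    · rw [sp_snoc, ← hsp, sp_snoc]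
      exact sup_le_sup_right hu'sp _
    · exact opp_step R k u' t (R.sp u) F hu'len hu'sp (hF 0 (by omega)) hu'

theorem opp (hl : StmLead) : StmOpp := by
  intro G _ V _ _ _ R n u t hn huT htT hfin F hF hmono htop hF1
  obtain ⟨k, rfl⟩ : ∃ k, n = k + 1 := ⟨n - 1, by omega⟩
  have hulen : u.length = k := by omega
  obtain ⟨u', hu'T, hu'len, hu'prod, hu'sp, hu'⟩ := lemB hl R k u huT hulen
    (finrank_sp_u R k u t hulen hfin) (fun j => F (j + 1) ⊓ R.sp u)
    (fun j hj => finrank_F' R k u t hulen hfin F hF hmono htop hF1 j hj)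
    (fun i j hij hj => inf_le_inf_right _ (hmono _ _ (by omega) (by omega)))
    inf_le_right
  exact ⟨u', hu'T, by omega, hu'prod, opp_step R k u' t (R.sp u) F hu'len hu'sp (hF 0 (by omega)) hu'⟩

end Pool.Agent.K3h15.Hz
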